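import Pool.Agent.H27.L1.H74.GHK.JKG1

/-!
Board ghk (MP_52e316_nt), second copy of the assembly JKG: the oscillating integral for two flags.
-/

set_option autoImplicit false

namespace Pool.Agent.H27.L1.H74.GHK

open Matrix Pool.Agent.H27.L1.H40.GHK Pool.Agent.H27.L1.H16.GHK MeasureTheory

lemma fsq_line {m : ℕ} (a b : Fin m) (Y0 : Fin m → Fin m → ℝ) (h : Y0 a b = 0) (s : ℝ) :
    fsq (Y0 + s • Pool.Agent.H27.L1.H40.GHK.eab a b) = fsq Y0 + s ^ 2 := by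
  unfold fsq
  have h1 : ∀ i j : Fin m, ((Y0 + s • Pool.Agent.H27.L1.H40.GHK.eab a b) i j) ^ 2 =
      Y0 i j ^ 2 + if i = a then (if j = b then s ^ 2 else 0) else 0 := by
    intro i j
    simp only [Pi.add_apply, Pi.smul_apply, smul_eq_mul, Pool.Agent.H27.L1.H40.GHK.eab]
    by_cases hi : i = a
    · by_cases hj : j = b
      · subst hi hj
        simp [h]
      · simp [hi, hj]
    · simp [hi]
  simp only [h1, Finset.sum_add_distrib]
  simp

lemma line_eq {m : ℕ} (a b : Fin m) (Y0 : Fin m → Fin m → ℝ) (s : ℝ) :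
    (1 : Matrix (Fin m) (Fin m) ℝ) + Matrix.of (Y0 + s • Pool.Agent.H27.L1.H40.GHK.eab a b) =
      (1 + Matrix.of Y0) + s • Pool.Agent.H27.L1.H16.GHK.eab a b := by
  ext i j
  simp only [Matrix.add_apply, Matrix.of_apply, Pi.add_apply, Pi.smul_apply, smul_eq_mul,
    Matrix.smul_apply, Pool.Agent.H27.L1.H40.GHK.eab, Pool.Agent.H27.L1.H16.GHK.eab]
  ring

theorem core (m : ℕ) (hm : 1 ≤ m) : ∃ r : ℝ, 0 < r ∧ r ≤ 1 / (4 * m) ∧
    (∀ z : Matrix (Fin m) (Fin m) ℝ, fsq (z - 1) < r ^ 2 → z.det ≠ 0) ∧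
    ∀ (A : ℕ) (M : ℝ), ∃ C : ℝ, 0 < C ∧ ∀ E E' : Fin m → Matrix (Fin m) (Fin m) ℝ,
      Flg E → Flg E' → ∀ c : Fin m → ℂ, (∀ j, |(c j).re| ≤ M) →
      (∀ j, 0 ≤ (c j).im ∨ E j = E' j) →
      ‖∫ Y in {Y : Fin m → Fin m → ℝ | fsq Y < r ^ 2},
        (((1 - fsq Y / r ^ 2) ^ A : ℝ) : ℂ) * gf E E' c (1 + Matrix.of Y)‖ ≤
        C * ((1 + gS E E' (fun j => |(c j).im|)) ^ A)⁻¹ := by
  obtain ⟨r0, C0, hr0, hC0, hphs⟩ := phs m
  have hm0 : (0 : ℝ) < m := by exact_mod_cast hm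
  have hm1 : (1 : ℝ) ≤ m := by exact_mod_cast hm
  obtain ⟨r, hr⟩ : ∃ r : ℝ, r = min r0 (min (1 / (4 * m)) (1 / (2 * C0 * m ^ 2))) := ⟨_, rfl⟩
  have hrp : 0 < r := by
    rw [hr]
    exact lt_min hr0 (lt_min (by positivity) (by positivity))
  have hr1 : r ≤ r0 := by
    rw [hr]
    exact min_le_left _ _
  have hr2 : r ≤ 1 / (4 * m) := by
    rw [hr]
    exact (min_le_right _ _).trans (min_le_left _ _)
  have hr3 : C0 * r * m ^ 2 ≤ 1 / 2 := by
    have h1 : r ≤ 1 / (2 * C0 * m ^ 2) := by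
      rw [hr]
      exact (min_le_right _ _).trans (min_le_right _ _)
    rw [le_div_iff₀ (by positivity)] at h1
    linarith
  have hr4 : r ≤ 1 := by
    refine hr2.trans ?_
    rw [div_le_one (by positivity)]
    linarith
  refine ⟨r, hrp, hr2, ?_, ?_⟩
  · intro z hz h0
    have h1 : Prj (1 : Matrix (Fin m) (Fin m) ℝ) := ⟨Matrix.transpose_one, Matrix.one_mul 1⟩
    have h2 := ((hphs r hrp hr1 z hz.le ⟨0, hm⟩ ⟨0, hm⟩ ((0 : ℝ) : ℂ) (by
      rw [Complex.ofReal_zero, norm_zero]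
      positivity)).1 1 h1).1
    rw [us_real h1, zero_smul, add_zero] at h2
    have h3 : dr (1 : Matrix (Fin m) (Fin m) ℝ) z = 0 := by
      unfold dr
      rw [Matrix.one_mul, Matrix.mul_one, add_sub_cancel_right, Matrix.det_mul, h0, mul_zero]
    rw [h3, Complex.ofReal_zero, zero_sub, norm_neg, norm_one] at h2
    linarith
  intro A M
  obtain ⟨C1, hC1, hlin⟩ := Pool.Agent.H27.L1.H87.GHK.lin A
  refine ⟨(r ^ 2) ^ A * ((r ^ 2) ^ A)⁻¹ * (((r ^ 2) ^ A)⁻¹ * (C1 * Real.exp (m * (M * 10)) *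
    (m : ℝ) ^ (2 * A))) * (2 * r) ^ (m * m - 1), by positivity, ?_⟩
  intro E E' hE hE' c hcM hc
  obtain ⟨β, hβ⟩ : ∃ β : Fin m → ℝ, β = fun j => |(c j).im| := ⟨_, rfl⟩
  have hβ0 : ∀ j, 0 ≤ β j := fun j => by
    rw [hβ]
    exact abs_nonneg _
  obtain ⟨D, hD⟩ : ∃ D : Matrix (Fin m) (Fin m) ℝ, D = ∑ j, β j • (E j - E' j) := ⟨_, rfl⟩
  obtain ⟨a, b, hab⟩ := max_entry hm D
  obtain ⟨kap, hkap⟩ : ∃ kap : ℝ, kap = 2 * D a b := ⟨_, rfl⟩
  have hgS : gS E E' β ≤ (m : ℝ) ^ 2 * |D a b| := by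
    have h1 := gS_le hE hE' hβ0
    rw [← hD] at h1
    refine h1.trans ?_
    calc (m : ℝ) * Real.sqrt (fsq D) ≤ m * (m * |D a b|) :=
          mul_le_mul_of_nonneg_left hab hm0.le
      _ = _ := by ring
  have hgS0 : 0 ≤ gS E E' β :=
    Finset.sum_nonneg (fun j _ => mul_nonneg (hβ0 j) (Real.sqrt_nonneg _))
  have hkabs : |kap| = 2 * |D a b| := by
    rw [hkap, abs_mul]
    norm_num
  have hfin : ((1 + |kap|) ^ A)⁻¹ ≤ (m : ℝ) ^ (2 * A) * ((1 + gS E E' β) ^ A)⁻¹ := by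
    have h1 : 1 + gS E E' β ≤ (m : ℝ) ^ 2 * (1 + |kap|) := by
      have h2 : (1 : ℝ) ≤ (m : ℝ) ^ 2 := one_le_pow₀ hm1
      have h3 : (m : ℝ) ^ 2 * |D a b| ≤ (m : ℝ) ^ 2 * |kap| := by
        refine mul_le_mul_of_nonneg_left ?_ (by positivity)
        rw [hkabs]
        linarith [abs_nonneg (D a b)]
      rw [mul_add]
      linarith
    have h4 : (1 + gS E E' β) ^ A ≤ (m : ℝ) ^ (2 * A) * (1 + |kap|) ^ A := by
      rw [pow_mul, ← mul_pow]
      exact pow_le_pow_left₀ (by positivity) h1 A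
    rw [← div_eq_mul_inv, inv_le_comm₀ (by positivity) (by positivity), inv_div,
      div_le_iff₀ (by positivity)]
    linarith
  obtain ⟨M', hM'⟩ : ∃ M' : ℝ, M' = ((r ^ 2) ^ A)⁻¹ *
    (C1 * Real.exp (m * (M * 10)) * ((1 + |kap|) ^ A)⁻¹) := ⟨_, rfl⟩
  have hfub := fub hrp a b (fun Y : Fin m → Fin m → ℝ =>
    (((1 - fsq Y / r ^ 2) ^ A : ℝ) : ℂ) * gf E E' c (1 + Matrix.of Y)) M' (by
      rw [hM']
      positivity) ?_
  · refine hfub.trans ?_
    rw [hM', ← hβ, mul_inv_cancel₀ (by positivity), one_mul]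
    calc ((r ^ 2) ^ A)⁻¹ * (C1 * Real.exp (m * (M * 10)) * ((1 + |kap|) ^ A)⁻¹) *
          (2 * r) ^ (m * m - 1) ≤ ((r ^ 2) ^ A)⁻¹ * (C1 * Real.exp (m * (M * 10)) *
            ((m : ℝ) ^ (2 * A) * ((1 + gS E E' β) ^ A)⁻¹)) * (2 * r) ^ (m * m - 1) := by
          gcongr
      _ = _ := by ring
  -- one slice
  intro Y0 hY0 hfY
  obtain ⟨sg, hsg⟩ : ∃ sg : ℝ, sg = Real.sqrt (r ^ 2 - fsq Y0) := ⟨_, rfl⟩
  rw [← hsg]
  have hsg2 : sg ^ 2 = r ^ 2 - fsq Y0 := by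
    rw [hsg]
    exact Real.sq_sqrt (by linarith)
  have hsg0 : 0 < sg := by
    rw [hsg]
    exact Real.sqrt_pos.2 (by linarith)
  have hsgr : sg ≤ r := by
    have h1 : sg ^ 2 ≤ r ^ 2 := by
      rw [hsg2]
      have := fsq_nonneg (m := Fin m) (n := Fin m) Y0
      linarith
    exact (pow_le_pow_iff_left₀ hsg0.le hrp.le (by norm_num)).1 h1
  obtain ⟨z, hz⟩ : ∃ z : Matrix (Fin m) (Fin m) ℝ, z = 1 + Matrix.of Y0 := ⟨_, rfl⟩
  have hz1 : fsq (z - 1) ≤ r ^ 2 := by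
    rw [hz, add_sub_cancel_left]
    exact hfY.le
  have hP := fun (s : ℂ) (hs : ‖s‖ ≤ 2 * r) => hphs r hrp hr1 z hz1 a b s hs
  obtain ⟨u, hu⟩ : ∃ u : Fin m → ℂ → ℂ, u = fun j s => Complex.log (us (E j) z a b s) := ⟨_, rfl⟩
  obtain ⟨u', hu'⟩ : ∃ u' : Fin m → ℂ → ℂ, u' = fun j s => Complex.log (us (E' j) z a b s) :=
    ⟨_, rfl⟩
  obtain ⟨Bf, hBf⟩ : ∃ Bf : ℂ → ℂ, Bf = fun s =>
    Complex.exp (∑ j, ((c j).re : ℂ) * (u j s + u' j s)) := ⟨_, rfl⟩
  obtain ⟨Ps, hPs⟩ : ∃ Ps : ℂ → ℂ, Ps = fun s => ∑ j, ((β j : ℝ) : ℂ) * (u j s - u' j s) :=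
    ⟨_, rfl⟩
  have hub : ∀ (j : Fin m) (s : ℂ), ‖s‖ ≤ 2 * r → ‖u j s‖ ≤ 5 ∧ ‖u' j s‖ ≤ 5 := by
    intro j s hs
    rw [hu, hu']
    exact ⟨log_bd ((hP s hs).1 (E j) (hE.prj j)).1, log_bd ((hP s hs).1 (E' j) (hE'.prj j)).1⟩
  have hud : ∀ (j : Fin m) (s : ℂ), ‖s‖ ≤ 2 * r → DifferentiableAt ℂ (u j) s ∧
      DifferentiableAt ℂ (u' j) s := by
    intro j s hs
    rw [hu, hu']
    have h1 := (hP s hs).1 (E j) (hE.prj j)
    have h2 := (hP s hs).1 (E' j) (hE'.prj j)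
    exact ⟨h1.2.clog (near_slit h1.1), h2.2.clog (near_slit h2.1)⟩
  -- real points
  have hreal : ∀ (F : Matrix (Fin m) (Fin m) ℝ) (x : ℝ), Prj F → |x| ≤ 2 * r →
      0 < dr F (z + x • Pool.Agent.H27.L1.H16.GHK.eab a b) ∧
      Complex.log (us F z a b (x : ℂ)) =
        ((Real.log (dr F (z + x • Pool.Agent.H27.L1.H16.GHK.eab a b)) : ℝ) : ℂ) := by
    intro F x hF hx
    have h1 := ((hP (x : ℂ) (by rwa [Complex.norm_real, Real.norm_eq_abs])).1 F hF).1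
    rw [us_real hF] at h1 ⊢
    have h2 : 0 < dr F (z + x • Pool.Agent.H27.L1.H16.GHK.eab a b) := by
      rw [← Complex.ofReal_one, ← Complex.ofReal_sub, Complex.norm_real, Real.norm_eq_abs,
        abs_le] at h1
      linarith [h1.1]
    exact ⟨h2, (Complex.ofReal_log h2.le).symm⟩
  have hL := hlin sg (2 * r) (Real.exp (m * (M * 10))) kap Bf Ps hsg0 (by linarith)
    (hsgr.trans hr4) ?_ ?_ ?_ ?_ ?_
  · -- conclusion
    have hint : ∫ s in (-sg)..sg, (fun Y : Fin m → Fin m → ℝ =>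
        (((1 - fsq Y / r ^ 2) ^ A : ℝ) : ℂ) * gf E E' c (1 + Matrix.of Y))
          (Y0 + s • Pool.Agent.H27.L1.H40.GHK.eab a b) =
        (((r : ℂ) ^ 2) ^ A)⁻¹ * ∫ s in (-sg)..sg, ((sg : ℂ) ^ 2 - (s : ℂ) ^ 2) ^ A * Bf s *
          Complex.exp (Complex.I * Ps s) := by
      rw [← intervalIntegral.integral_const_mul]
      refine intervalIntegral.integral_congr (fun s hs => ?_)
      have hs1 : |s| ≤ 2 * r := by
        rw [Set.uIcc_of_le (by linarith)] at hs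
        exact (abs_le.2 ⟨hs.1, hs.2⟩).trans (by linarith)
      show (((1 - fsq (Y0 + s • Pool.Agent.H27.L1.H40.GHK.eab a b) / r ^ 2) ^ A : ℝ) : ℂ) *
        gf E E' c (1 + Matrix.of (Y0 + s • Pool.Agent.H27.L1.H40.GHK.eab a b)) = _
      rw [fsq_line a b Y0 hY0, line_eq, ← hz]
      have e1 : (((1 - (fsq Y0 + s ^ 2) / r ^ 2) ^ A : ℝ) : ℂ) =
          (((r : ℂ) ^ 2) ^ A)⁻¹ * ((sg : ℂ) ^ 2 - (s : ℂ) ^ 2) ^ A := by
        have e2 : 1 - (fsq Y0 + s ^ 2) / r ^ 2 = (r ^ 2)⁻¹ * (sg ^ 2 - s ^ 2) := by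
          rw [hsg2]
          field_simp
          ring
        rw [e2, mul_pow]
        push_cast
        rw [inv_pow]
      have e3 : gf E E' c (z + s • Pool.Agent.H27.L1.H16.GHK.eab a b) =
          Bf s * Complex.exp (Complex.I * Ps s) := by
        unfold gf
        rw [hBf, hPs]
        simp only
        rw [← Complex.exp_conj, ← Complex.exp_add, ← Complex.exp_add]
        congr 1
        rw [map_sum, Finset.mul_sum, ← Finset.sum_add_distrib, ← Finset.sum_add_distrib]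
        refine Finset.sum_congr rfl (fun j _ => ?_)
        rw [hu, hu']
        simp only
        rw [(hreal (E j) s (hE.prj j) hs1).2, (hreal (E' j) s (hE'.prj j) hs1).2, map_mul,
          Complex.conj_ofReal]
        obtain ⟨l, hl⟩ : ∃ l : ℂ, l = ((Real.log (dr (E j) (z + s •
          Pool.Agent.H27.L1.H16.GHK.eab a b)) : ℝ) : ℂ) := ⟨_, rfl⟩
        obtain ⟨l', hl'⟩ : ∃ l : ℂ, l = ((Real.log (dr (E' j) (z + s •
          Pool.Agent.H27.L1.H16.GHK.eab a b)) : ℝ) : ℂ) := ⟨_, rfl⟩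
        have e4 : ((β j : ℝ) : ℂ) * (l - l') = ((c j).im : ℂ) * (l - l') := by
          rcases hc j with h | h
          · rw [hβ]
            simp only
            rw [abs_of_nonneg h]
          · have : l = l' := by rw [hl, hl', h]
            rw [this, sub_self, mul_zero, mul_zero]
        rw [← hl, ← hl', e4]
        have e5 : (starRingEnd ℂ) (c j) = ((c j).re : ℂ) - Complex.I * ((c j).im : ℂ) := by
          apply Complex.ext <;> simp
        have e6 : c j = ((c j).re : ℂ) + Complex.I * ((c j).im : ℂ) := by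
          apply Complex.ext <;> simp
        rw [e5]
        nth_rewrite 1 [e6]
        ring
      rw [e1, e3]
      ring
    rw [hint, norm_mul, hM']
    have e7 : ‖(((r : ℂ) ^ 2) ^ A)⁻¹‖ = ((r ^ 2) ^ A)⁻¹ := by
      rw [norm_inv, norm_pow, norm_pow, Complex.norm_real, Real.norm_eq_abs, abs_of_pos hrp]
    rw [e7]
    exact mul_le_mul_of_nonneg_left hL (by positivity)
  · -- Bf holomorphic
    intro s hs
    have hs' : ‖s‖ ≤ 2 * r := (mem_ball_zero_iff.1 hs).le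
    rw [hBf]
    refine DifferentiableAt.differentiableWithinAt (DifferentiableAt.cexp ?_)
    refine DifferentiableAt.fun_sum (fun j _ => ?_)
    exact ((hud j s hs').1.add (hud j s hs').2).const_mul _
  · intro s hs
    have hs' : ‖s‖ ≤ 2 * r := (mem_ball_zero_iff.1 hs).le
    rw [hPs]
    refine DifferentiableAt.differentiableWithinAt ?_
    refine DifferentiableAt.fun_sum (fun j _ => ?_)
    exact ((hud j s hs').1.sub (hud j s hs').2).const_mul _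
  · intro s hs
    have hs' : ‖s‖ ≤ 2 * r := (mem_ball_zero_iff.1 hs).le
    rw [hBf]
    simp only
    refine (Complex.norm_exp_le_exp_norm _).trans (Real.exp_le_exp.2 ?_)
    calc ‖∑ j, ((c j).re : ℂ) * (u j s + u' j s)‖ ≤
        ∑ j, ‖((c j).re : ℂ) * (u j s + u' j s)‖ := norm_sum_le _ _
      _ ≤ ∑ _j : Fin m, M * 10 := by
          refine Finset.sum_le_sum (fun j _ => ?_)
          rw [norm_mul, Complex.norm_real, Real.norm_eq_abs]
          have h1 := hub j s hs'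
          have h2 : ‖u j s + u' j s‖ ≤ 10 := (norm_add_le _ _).trans (by linarith [h1.1, h1.2])
          exact mul_le_mul (hcM j) h2 (norm_nonneg _) ((abs_nonneg _).trans (hcM j))
      _ = m * (M * 10) := by simp
  · intro x hx
    rw [hPs]
    simp only
    rw [Complex.im_sum]
    refine Finset.sum_eq_zero (fun j _ => ?_)
    rw [hu, hu']
    simp only
    rw [(hreal (E j) x (hE.prj j) hx.le).2, (hreal (E' j) x (hE'.prj j) hx.le).2,
      ← Complex.ofReal_sub, ← Complex.ofReal_mul, Complex.ofReal_im]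
  · intro s hs
    have hs' : ‖s‖ ≤ 2 * r := (mem_ball_zero_iff.1 hs).le
    have hd : ∀ j, ∃ d : ℂ, HasDerivAt (fun t => u j t - u' j t) d s ∧
        ‖d - 2 * (((E j - E' j) a b : ℝ) : ℂ)‖ ≤ C0 * r * Real.sqrt (fsq (E j - E' j)) := by
      intro j
      obtain ⟨d, hd1, hd2⟩ := (hP s hs').2 (E j) (E' j) (hE.prj j) (hE'.prj j)
      refine ⟨d, ?_, hd2⟩
      rw [hu, hu']
      exact hd1
    choose d hd1 hd2 using hd
    have h1 : HasDerivAt Ps (∑ j, ((β j : ℝ) : ℂ) * d j) s := by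
      rw [hPs]
      exact HasDerivAt.fun_sum (fun j _ => (hd1 j).const_mul _)
    rw [h1.deriv]
    have h2 : ((kap : ℝ) : ℂ) = ∑ j, ((β j : ℝ) : ℂ) * (2 * (((E j - E' j) a b : ℝ) : ℂ)) := by
      rw [hkap, hD, Matrix.sum_apply, Finset.mul_sum, Complex.ofReal_sum]
      refine Finset.sum_congr rfl (fun j _ => ?_)
      rw [Matrix.smul_apply, smul_eq_mul]
      push_cast
      ring
    rw [h2, ← Finset.sum_sub_distrib]
    calc ‖∑ j, (((β j : ℝ) : ℂ) * d j - ((β j : ℝ) : ℂ) * (2 * (((E j - E' j) a b : ℝ) : ℂ)))‖ ≤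
        ∑ j, ‖((β j : ℝ) : ℂ) * d j - ((β j : ℝ) : ℂ) * (2 * (((E j - E' j) a b : ℝ) : ℂ))‖ :=
          norm_sum_le _ _
      _ ≤ ∑ j, β j * (C0 * r * Real.sqrt (fsq (E j - E' j))) := by
          refine Finset.sum_le_sum (fun j _ => ?_)
          rw [← mul_sub, norm_mul, Complex.norm_real, Real.norm_eq_abs, abs_of_nonneg (hβ0 j)]
          exact mul_le_mul_of_nonneg_left (hd2 j) (hβ0 j)
      _ = C0 * r * gS E E' β := by
          unfold gS
          rw [Finset.mul_sum]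
          exact Finset.sum_congr rfl (fun j _ => by ring)
      _ ≤ C0 * r * ((m : ℝ) ^ 2 * |D a b|) := mul_le_mul_of_nonneg_left hgS (by positivity)
      _ = C0 * r * m ^ 2 * |D a b| := by ring
      _ ≤ 1 / 2 * |D a b| := mul_le_mul_of_nonneg_right hr3 (abs_nonneg _)
      _ = |kap| / 4 := by
          rw [hkabs]
          ring

end Pool.Agent.H27.L1.H74.GHK
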